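import Pool.Agent.Helper17.R8.Sheet

/-! # Row PTS (MP_798d7d_nt, rank eight): the eight points of the family -/

set_option autoImplicit false

namespace Pool.Helper17.R8

namespace S34

section
variable {R : Type*} [CommRing R]

theorem pts_yv (e : ℕ → R) (t s : R) (h : s ^ 8 + e 2 * s ^ 6 - e 3 * s ^ 5 + e 4 * s ^ 4 -
    e 5 * s ^ 3 + e 6 * s ^ 2 - e 7 * s + e 8 = 0) :
    yv e t s ^ 2 = q4 e t * (s ^ 2) ^ 4 + q3 e t * (s ^ 2) ^ 3 + q2 e t * (s ^ 2) ^ 2 +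
      q1 e t * s ^ 2 + q0 e t := by
  unfold yv q4 q3 q2 q1 q0
  linear_combination (4 * (s ^ 6 + e 2 * s ^ 4 + e 4 * s ^ 2 + e 6 - t)) * h

theorem pts_y9 (e : ℕ → R) (t : R) :
    y9 e t ^ 2 = q4 e t * (-(e 8)) ^ 4 + q3 e t * (-(e 8)) ^ 3 * t + q2 e t * (-(e 8)) ^ 2 * t ^ 2 +
      q1 e t * (-(e 8)) * t ^ 3 + q0 e t * t ^ 4 := by
  unfold y9 q4 q3 q2 q1 q0
  ring

theorem ek_one (s : Fin 8 → R) : ek s 1 = ∑ i, s i := by
  unfold ek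
  rw [Finset.powersetCard_one, Finset.sum_map]
  simp

theorem ek_eight (s : Fin 8 → R) : ek s 8 = ∏ i, s i := by
  unfold ek
  have h : (Finset.powersetCard 8 (Finset.univ : Finset (Fin 8))) = {Finset.univ} := by
    have := Finset.powersetCard_self (Finset.univ : Finset (Fin 8))
    rwa [Finset.card_univ, Fintype.card_fin] at this
  rw [h, Finset.sum_singleton]

theorem ek_one_ss (u : Fin 6 → R) : ek (ss u) 1 = 0 := by
  rw [ek_one, Fin.sum_univ_eight]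
  simp only [ss, Matrix.cons_val]
  ring

end

/-- the root relation -/
theorem pts_root (hV : ST_VIE) (u : Fin 6 → ℤ) (j : Fin 8) :
    (ss u j) ^ 8 + ek (ss u) 2 * (ss u j) ^ 6 - ek (ss u) 3 * (ss u j) ^ 5 +
      ek (ss u) 4 * (ss u j) ^ 4 - ek (ss u) 5 * (ss u j) ^ 3 + ek (ss u) 6 * (ss u j) ^ 2 -
      ek (ss u) 7 * (ss u j) + ek (ss u) 8 = 0 := by
  have h := hV ℤ (ss u) (ss u j)
  rw [ek_one_ss, Finset.prod_eq_zero (Finset.mem_univ j) (sub_self _)] at h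
  linarith

theorem MM11 : (11 : ℤ) ∣ MM := by
  unfold MM
  refine Dvd.dvd.mul_left ?_ _
  exact_mod_cast (Nat.dvd_factorial (by norm_num) (by unfold QQ; norm_num) : 11 ∣ Nat.factorial QQ)

/-- residues modulo 11 -/
theorem ss11 (w : Par) (hw : Cong w) : ∀ j : Fin 8,
    (11 : ℤ) ∣ ss w.1 j - (![-5, 13, -17, 15, 7, -11, 1, -3] : Fin 8 → ℤ) j := by
  obtain ⟨hw1, -⟩ := hw
  have h : ∀ i, (11 : ℤ) ∣ w.1 i - ub i := fun i => MM11.trans (hw1 i)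
  have h0 := h 0
  have h1 := h 1
  have h2 := h 2
  have h3 := h 3
  have h4 := h 4
  have h5 := h 5
  simp only [ub, Matrix.cons_val] at h0 h1 h2 h3 h4 h5
  intro j
  fin_cases j <;> simp only [ss, Matrix.cons_val, Fin.zero_eta, Fin.mk_one, Fin.reduceFinMk] <;>
    omega

theorem pts_pv (w : Par) (hw : Cong w) (j : Fin 8) : pv w j ≠ 0 := by
  have hs := ss11 w hw
  have ht : (11 : ℤ) ∣ w.2 - 3 := MM11.trans hw.2
  have hz : ∀ j : Fin 8, ((ss w.1 j : ℤ) : ZMod 11) =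
      (((![-5, 13, -17, 15, 7, -11, 1, -3] : Fin 8 → ℤ) j : ℤ) : ZMod 11) := by
    intro j
    have := (ZMod.intCast_zmod_eq_zero_iff_dvd _ 11).2 (hs j)
    push_cast at this ⊢
    exact sub_eq_zero.1 this
  have htz : ((w.2 : ℤ) : ZMod 11) = 3 := by
    have := (ZMod.intCast_zmod_eq_zero_iff_dvd _ 11).2 ht
    push_cast at this
    exact sub_eq_zero.1 this
  intro h0
  have h1 : ((pv w j : ℤ) : ZMod 11) = 0 := by
    rw [h0]
    simp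
  by_cases hj : j = 7
  · rw [pv, if_pos hj] at h1
    push_cast at h1
    rw [ek_eight] at h1
    push_cast at h1
    rw [Fin.prod_univ_eight, hz 0, hz 1, hz 2, hz 3, hz 4, hz 5, hz 6, hz 7, htz] at h1
    revert h1
    decide
  · rw [pv, if_neg hj] at h1
    push_cast at h1
    rw [hz j, hz 7] at h1
    revert h1 hj
    clear h0
    revert j
    decide

/-- two finite points -/
theorem pts_c1 (hP : ST_PT) (e : ℕ → ℤ) (t A B a b : ℤ) (hA : 48 * A = -(fI e t))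
    (hB : 1728 * B = -(fJ e t))
    (ha : a ^ 8 + e 2 * a ^ 6 - e 3 * a ^ 5 + e 4 * a ^ 4 - e 5 * a ^ 3 + e 6 * a ^ 2 - e 7 * a +
      e 8 = 0)
    (hb : b ^ 8 + e 2 * b ^ 6 - e 3 * b ^ 5 + e 4 * b ^ 4 - e 5 * b ^ 3 + e 6 * b ^ 2 - e 7 * b +
      e 8 = 0) (x v : ℤ) (hx : x = 3 * xX e t (a ^ 2) (yv e t a) (b ^ 2) 1 (yv e t b))
    (hv : v = 6 * (a ^ 2 - b ^ 2)) (hv0 : v ≠ 0) :
    ∃ y : ℚ, y ^ 2 = ((x : ℚ) / (v : ℚ) ^ 2) ^ 3 + (A : ℚ) * ((x : ℚ) / (v : ℚ) ^ 2) + (B : ℚ) := by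
  have hA' : (48 : ℚ) * (A : ℚ) = -(fI (fun k => (e k : ℚ)) (t : ℚ)) := by
    have := congrArg (fun z : ℤ => (z : ℚ)) hA
    simp only [fI, q4, q3, q2, q1, q0] at this ⊢
    push_cast at this
    exact this
  have hB' : (1728 : ℚ) * (B : ℚ) = -(fJ (fun k => (e k : ℚ)) (t : ℚ)) := by
    have := congrArg (fun z : ℤ => (z : ℚ)) hB
    simp only [fJ, q4, q3, q2, q1, q0] at this ⊢
    push_cast at this
    exact this
  have hra := pts_yv (fun k => (e k : ℚ)) (t : ℚ) (a : ℚ) (by exact_mod_cast ha)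
  have hrb := pts_yv (fun k => (e k : ℚ)) (t : ℚ) (b : ℚ) (by exact_mod_cast hb)
  have hne : ((a : ℚ) ^ 2) * (1 : ℚ) - (b : ℚ) ^ 2 ≠ 0 := by
    intro h
    apply hv0
    have h2 : ((a ^ 2 - b ^ 2 : ℤ) : ℚ) = 0 := by
      push_cast
      linarith
    have h3 : a ^ 2 - b ^ 2 = 0 := by exact_mod_cast h2
    rw [hv, h3, mul_zero]
  obtain ⟨Y, hY⟩ := hP (fun k => (e k : ℚ)) (t : ℚ) (A : ℚ) (B : ℚ) ((a : ℚ) ^ 2)
    (yv (fun k => (e k : ℚ)) (t : ℚ) (a : ℚ)) ((b : ℚ) ^ 2) 1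
    (yv (fun k => (e k : ℚ)) (t : ℚ) (b : ℚ)) hA' hB' hra
    (by rw [hrb]; ring) one_ne_zero hne
  refine ⟨Y, ?_⟩
  have hq : ((x : ℚ) / (v : ℚ) ^ 2) =
      xX (fun k => (e k : ℚ)) (t : ℚ) ((a : ℚ) ^ 2)
        (yv (fun k => (e k : ℚ)) (t : ℚ) (a : ℚ)) ((b : ℚ) ^ 2) 1
        (yv (fun k => (e k : ℚ)) (t : ℚ) (b : ℚ)) /
        (12 * ((a : ℚ) ^ 2 * (1 : ℚ) - (b : ℚ) ^ 2) ^ 2) := by
    rw [div_eq_div_iff (pow_ne_zero 2 (by exact_mod_cast hv0))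
      (mul_ne_zero (by norm_num) (pow_ne_zero 2 hne)), hx, hv]
    simp only [xX, yv, q4, q3, q2, q1, q0]
    push_cast
    ring
  rw [hq]
  exact hY

/-- a finite point and the point `- e 8 / t` -/
theorem pts_c2 (hP : ST_PT) (e : ℕ → ℤ) (t A B a : ℤ) (hA : 48 * A = -(fI e t))
    (hB : 1728 * B = -(fJ e t)) (ht : t ≠ 0)
    (ha : a ^ 8 + e 2 * a ^ 6 - e 3 * a ^ 5 + e 4 * a ^ 4 - e 5 * a ^ 3 + e 6 * a ^ 2 - e 7 * a +
      e 8 = 0)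
    (x v : ℤ) (hx : x = 3 * xX e t (a ^ 2) (yv e t a) (-(e 8)) t (y9 e t))
    (hv : v = 6 * (a ^ 2 * t + e 8)) (hv0 : v ≠ 0) :
    ∃ y : ℚ, y ^ 2 = ((x : ℚ) / (v : ℚ) ^ 2) ^ 3 + (A : ℚ) * ((x : ℚ) / (v : ℚ) ^ 2) + (B : ℚ) := by
  have hA' : (48 : ℚ) * (A : ℚ) = -(fI (fun k => (e k : ℚ)) (t : ℚ)) := by
    have := congrArg (fun z : ℤ => (z : ℚ)) hA
    simp only [fI, q4, q3, q2, q1, q0] at this ⊢
    push_cast at this
    exact this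
  have hB' : (1728 : ℚ) * (B : ℚ) = -(fJ (fun k => (e k : ℚ)) (t : ℚ)) := by
    have := congrArg (fun z : ℤ => (z : ℚ)) hB
    simp only [fJ, q4, q3, q2, q1, q0] at this ⊢
    push_cast at this
    exact this
  have hra := pts_yv (fun k => (e k : ℚ)) (t : ℚ) (a : ℚ) (by exact_mod_cast ha)
  have ht0 : (t : ℚ) ≠ 0 := by exact_mod_cast ht
  have hne : ((a : ℚ) ^ 2) * (t : ℚ) - (-(e 8 : ℚ)) ≠ 0 := by
    intro h
    apply hv0
    have h2 : ((a ^ 2 * t + e 8 : ℤ) : ℚ) = 0 := by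
      push_cast
      linarith
    have h3 : a ^ 2 * t + e 8 = 0 := by exact_mod_cast h2
    rw [hv, h3, mul_zero]
  obtain ⟨Y, hY⟩ := hP (fun k => (e k : ℚ)) (t : ℚ) (A : ℚ) (B : ℚ) ((a : ℚ) ^ 2)
    (yv (fun k => (e k : ℚ)) (t : ℚ) (a : ℚ)) (-(e 8 : ℚ)) (t : ℚ)
    (y9 (fun k => (e k : ℚ)) (t : ℚ)) hA' hB' hra (pts_y9 _ _) ht0 hne
  refine ⟨Y, ?_⟩
  have hq : ((x : ℚ) / (v : ℚ) ^ 2) =
      xX (fun k => (e k : ℚ)) (t : ℚ) ((a : ℚ) ^ 2)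
        (yv (fun k => (e k : ℚ)) (t : ℚ) (a : ℚ)) (-(e 8 : ℚ)) (t : ℚ)
        (y9 (fun k => (e k : ℚ)) (t : ℚ)) /
        (12 * ((a : ℚ) ^ 2 * (t : ℚ) - (-(e 8 : ℚ))) ^ 2) := by
    rw [div_eq_div_iff (pow_ne_zero 2 (by exact_mod_cast hv0))
      (mul_ne_zero (by norm_num) (pow_ne_zero 2 hne)), hx, hv]
    simp only [xX, yv, y9, q4, q3, q2, q1, q0]
    push_cast
    ring
  rw [hq]
  exact hY

end S34

open S34

theorem st_PTS (hV : ST_VIE) (hP : ST_PT) (hR : ST_REL) : ST_PTS := by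
  intro w hw j
  refine ⟨pts_pv w hw j, ?_⟩
  obtain ⟨hA, hB, -, -⟩ := hR w hw
  have hpv := pts_pv w hw j
  by_cases hj : j = 7
  · have ht0 : w.2 ≠ 0 := by
      have ht : (11 : ℤ) ∣ w.2 - 3 := MM11.trans hw.2
      intro h
      rw [h] at ht
      revert ht
      decide
    refine pts_c2 hP (ek (ss w.1)) w.2 (cA w) (cB w) (ss w.1 0) hA hB ht0 (pts_root hV w.1 0)
      (px w j) (pv w j) ?_ ?_ hpv
    · rw [px, if_pos hj]
    · rw [pv, if_pos hj]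
  · refine pts_c1 hP (ek (ss w.1)) w.2 (cA w) (cB w) (ss w.1 j) (ss w.1 7) hA hB
      (pts_root hV w.1 j) (pts_root hV w.1 7) (px w j) (pv w j) ?_ ?_ hpv
    · rw [px, if_neg hj]
    · rw [pv, if_neg hj]

end Pool.Helper17.R8
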